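import Pool.Agent.Lib.MP_a9445a_lc.BE.X0

/-!
Robust positive discrepancy.
-/

set_option autoImplicit false

open Finset

namespace Pool.Agent.MPa9445a.BE

variable {n : ℕ}

/-- Robust positive discrepancy: for every set `B` of at most `ρ n` vertices there is a vector `y` with entries in
`[-1/2, 1/2]` and sum `0`, which vanishes on `B` and outside `U`, and at which the quadratic form is at least
`g √(D n)`, `D` the sum of the squares of the entries of `A`. -/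
def Rob (g ρ : ℝ) (A : Matrix (Fin n) (Fin n) ℝ) (U : Finset (Fin n)) : Prop :=
  ∀ B : Finset (Fin n), (B.card : ℝ) ≤ ρ * n → ∃ y : Fin n → ℝ,
    (∀ v, v ∈ B ∨ v ∉ U → y v = 0) ∧ ∑ v, y v = 0 ∧ (∀ v, |y v| ≤ 1 / 2) ∧
      g * Real.sqrt ((∑ u, ∑ v, A u v ^ 2) * n) ≤ qr A y

theorem Rob.mono {g g' ρ ρ' : ℝ} {A : Matrix (Fin n) (Fin n) ℝ} {U : Finset (Fin n)}
    (h : Rob g ρ A U) (hg : g' ≤ g) (hρ : ρ' ≤ ρ) : Rob g' ρ' A U := by
  intro B hB
  obtain ⟨y, h1, h2, h3, h4⟩ := h B (hB.trans (mul_le_mul_of_nonneg_right hρ (Nat.cast_nonneg n)))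
  exact ⟨y, h1, h2, h3, (mul_le_mul_of_nonneg_right hg (Real.sqrt_nonneg _)).trans h4⟩

end Pool.Agent.MPa9445a.BE
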