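import Pool.Agent.Lib.MP_a9445a_lc.BE.Cls
import Pool.Agent.Lib.MP_a9445a_lc.SP.Rb

/-! The class of graphs. -/

set_option autoImplicit false

open Finset

namespace Pool.Agent.MPa9445a.BE

variable {n : ℕ}

/-- No `r n` vertices cover more than `(1 - r) m` edges: after deletion of any set of at most `r n` vertices at least `r m`
edges remain, `m` the number of edges of `G`. -/
def Spread (r : ℝ) (G : SimpleGraph (Fin n)) : Prop :=
  ∀ B : Finset (Fin n), (B.card : ℝ) ≤ r * n → r * (ne G : ℝ) ≤ ne (subG G B)

theorem Spread.mono {r r' : ℝ} {G : SimpleGraph (Fin n)} (h : Spread r G) (hr : r' ≤ r) :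
    Spread r' G := by
  intro B hB
  refine le_trans ?_ (h B (hB.trans (mul_le_mul_of_nonneg_right hr (Nat.cast_nonneg n))))
  exact mul_le_mul_of_nonneg_right hr (Nat.cast_nonneg _)

open scoped Classical in
/-- The number of ordered triples of mutually adjacent vertices (six times the number of triangles). -/
noncomputable def tri (G : SimpleGraph (Fin n)) : ℕ :=
  (univ.filter fun t : Fin n × Fin n × Fin n =>
    G.Adj t.1 t.2.1 ∧ G.Adj t.1 t.2.2 ∧ G.Adj t.2.1 t.2.2).card

/-- At most `c n ^ (5 / 3)` edges. -/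
def Sparse (c : ℝ) (G : SimpleGraph (Fin n)) : Prop := (ne G : ℝ) ≤ c * (n : ℝ) ^ (5 / 3 : ℝ)

/-- The maximum degree is at most `1 / r` times the average degree `2 m / n`. -/
def Flat (r : ℝ) (G : SimpleGraph (Fin n)) : Prop :=
  ∀ v, r * n * ∑ u, adjR G v u ≤ 2 * ne G

/-- `G` outside `H`, or its complement outside `H`, has energy at least `r √(2 m n)` or robust positive discrepancy
(`Rob`) at least `r √(2 m n)`; for the complement the form is minus the adjacency matrix. -/
def Fast (r : ℝ) (G : SimpleGraph (Fin n)) (H : Finset (Fin n)) : Prop :=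
  Energetic r (subG G H) ∨ Energetic r (subG Gᶜ H) ∨ Rob r r (adjR (subG G H)) Hᶜ ∨
    Rob r r (-adjR (subG Gᶜ H)) Hᶜ

/-- The class of graphs: `Fast` after deletion of a set `H` of at most `n / M` vertices; or edgeless or complete after
deletion of at most `n / 60` vertices. -/
def ClassR (r : ℝ) (M : ℕ) (G : SimpleGraph (Fin n)) : Prop :=
  ∃ H : Finset (Fin n), (H.card * M ≤ n ∧ Fast r G H) ∨
    (60 * H.card ≤ n ∧ (subG G H = ⊥ ∨ subG Gᶜ H = ⊥))

/-- The class of graphs of the theorem. There is a set `H` of at most `n / M` vertices such that, outside `H`, one of the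
following holds: `G` or its complement has large energy or robust positive discrepancy (`Fast`); `G` has at most
`c n ^ (5 / 3)` edges and no `r n` vertices cover more than `(1 - r) m` of them; the complement has these two properties and
few triangles. Or: `G` is edgeless or complete outside a set of at most `n / 60` vertices. -/
def Tame (r c : ℝ) (M : ℕ) (G : SimpleGraph (Fin n)) : Prop :=
  ∃ H : Finset (Fin n),
    (H.card * M ≤ n ∧ (Fast r G H ∨ (Sparse c (subG G H) ∧ Spread r (subG G H)) ∨
      (Sparse c (subG Gᶜ H) ∧ Spread r (subG Gᶜ H) ∧ (tri (subG Gᶜ H) : ℝ) ≤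
        c * ne (subG Gᶜ H) * Real.sqrt (ne (subG Gᶜ H) / n)))) ∨
    (60 * H.card ≤ n ∧ (subG G H = ⊥ ∨ subG Gᶜ H = ⊥))

end Pool.Agent.MPa9445a.BE
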