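import Pool.Agent.Lib.MP_a9445a_lc.Mg.G151
import Pool.Agent.Lib.MP_a9445a_lc.BE.T3

/-! The optimum is kept: the choice of the parameters. -/

set_option autoImplicit false

open Finset

namespace Pool.Agent.MPa9445a.BE

private theorem SO2_main {r c a n K ρ e dl w sD L : ℝ} (hr : 0 < r) (hr1 : r ≤ 1)
    (hc : c = r ^ 3 / 10 ^ 6) (ha : 0 < a) (hn : 0 < n) (hK : 1 ≤ K) (he0 : 0 ≤ e)
    (he : e ≤ ρ * n) (hK1 : 1 / K ≤ c / 100) (hK2 : K * ρ ≤ c / 100) (hL : L ≤ 7 / 10)
    (hL0 : 0 ≤ L) (hdl : dl ≤ c / 5 * (a * n)) (hw : w = c * (a * n)) (hsD : 1 ≤ sD)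
    (hsD2 : 16 * sD ≤ c * (a * n)) :
    100 * (c * (a * n) + dl) + a * n / K < r * (a * n) - 16 * (K * a) * e * L - w -
        8 * (sD + 1) ∧ 64 * e * L ≤ r * n := by
  have hcpos : 0 < c := by rw [hc]; positivity
  have hX : 0 < a * n := by positivity
  have hρ0 : 0 ≤ ρ := by
    by_contra h
    push Not at h
    have : ρ * n < 0 := mul_neg_of_neg_of_pos h hn
    linarith
  have hρ : ρ ≤ c / 100 := by nlinarith
  have hcr : 10 ^ 6 * c ≤ r := by
    rw [hc]
    have : r ^ 3 ≤ r := by nlinarith [sq_nonneg r]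
    linarith
  have h1 : a * n / K ≤ c / 100 * (a * n) := by
    have : a * n / K = 1 / K * (a * n) := by ring
    rw [this]
    exact mul_le_mul_of_nonneg_right hK1 hX.le
  have h2 : K * a * e * L ≤ 7 / 1000 * (c * (a * n)) := by
    have h3 : K * e ≤ c / 100 * n := by
      calc K * e ≤ K * (ρ * n) := mul_le_mul_of_nonneg_left he (by linarith)
        _ = K * ρ * n := by ring
        _ ≤ c / 100 * n := mul_le_mul_of_nonneg_right hK2 hn.le
    have h4 : K * a * e * L = (K * e) * (a * L) := by ring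
    rw [h4]
    calc (K * e) * (a * L) ≤ (c / 100 * n) * (a * L) :=
          mul_le_mul_of_nonneg_right h3 (by positivity)
      _ ≤ (c / 100 * n) * (a * (7 / 10)) := by
          apply mul_le_mul_of_nonneg_left _ (by positivity)
          exact mul_le_mul_of_nonneg_left hL ha.le
      _ = 7 / 1000 * (c * (a * n)) := by ring
  have hcX : 0 < c * (a * n) := by positivity
  refine ⟨?_, ?_⟩
  · have h12 : 10 ^ 6 * (c * (a * n)) ≤ r * (a * n) := by
      calc 10 ^ 6 * (c * (a * n)) = (10 ^ 6 * c) * (a * n) := by ring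
        _ ≤ r * (a * n) := mul_le_mul_of_nonneg_right hcr hX.le
    have h13 : 16 * (K * a) * e * L = 16 * (K * a * e * L) := by ring
    rw [h13, hw]
    nlinarith
  · have h6 : e ≤ c / 100 * n := he.trans (mul_le_mul_of_nonneg_right hρ hn.le)
    have h7 : e * L ≤ c / 100 * n * (7 / 10) := mul_le_mul h6 hL hL0 (by positivity)
    have h8 : c * n ≤ r / 10 ^ 6 * n := mul_le_mul_of_nonneg_right (by linarith) hn.le
    have h9 : 0 ≤ r * n := by positivity
    nlinarith

/-- The proof is that of `opt_par`, with `optR`. -/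
theorem opt_parR (m K p q : ℕ) (hm : 0 < m) (hK : 0 < K) (hq : 0 < q)
    (h1 : 1 / (K : ℝ) ≤ c3 m / 100) (h2 : (K : ℝ) * (p / q) ≤ c3 m / 100) :
    ∃ n₀ : ℕ, ∀ n : ℕ, n₀ ≤ n → ∀ S : Matrix (Fin n) (Fin n) ℤ, Mat S → 0 < D2 S →
      ∀ b : Fin n → ℤ, ∀ U : Finset (Fin n), Rob (1 / m : ℝ) (1 / m : ℝ) (rl S) U → ∀ x ∈ Om U,
      (∀ y ∈ Om U, ∑ v, y v = ∑ v, x v → qf S y + lf b y ≤ qf S x + lf b x) →
      ∀ k : Fin n → Fin 8, ∃ i j, Kp (par m K p q hm hq) S b (U ∩ bk k i j) (rs (bk k i j) x) := by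
  refine ⟨(16 * 10 ^ 6 * m ^ 3) ^ 2, fun n hn S hS hD b U hRob x hx hmax k => ?_⟩
  have hm1 : (1 : ℝ) ≤ m := by exact_mod_cast hm
  have hK1 : (1 : ℝ) ≤ K := by exact_mod_cast hK
  have hq0 : (0 : ℝ) < q := by exact_mod_cast hq
  have hn' : ((16 * 10 ^ 6 * (m : ℝ) ^ 3) ^ 2 : ℝ) ≤ n := by exact_mod_cast hn
  have hm3 : (1 : ℝ) ≤ (m : ℝ) ^ 3 := one_le_pow₀ hm1
  have hnpos : (0 : ℝ) < n := lt_of_lt_of_le (by positivity) hn'
  have hn0 : 0 < n := by exact_mod_cast hnpos
  have hD1 : (1 : ℝ) ≤ (D2 S : ℝ) := by exact_mod_cast hD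
  have hD0 : (0 : ℝ) < (D2 S : ℝ) := by linarith
  set D : ℝ := (D2 S : ℝ) with hDdef
  have hr : (0 : ℝ) < 1 / m := by positivity
  have hr1 : (1 : ℝ) / m ≤ 1 := by
    rw [div_le_one (by positivity)]; exact hm1
  have hc : c3 m = (1 / (m : ℝ)) ^ 3 / 10 ^ 6 := by
    unfold c3
    field_simp
  have hcpos : 0 < c3 m := by rw [hc]; positivity
  set a : ℝ := Real.sqrt (D / n) with hadef
  have ha : 0 < a := Real.sqrt_pos.2 (by positivity)
  have ha2 : a ^ 2 = D / n := Real.sq_sqrt (by positivity)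
  have hDa : D = a ^ 2 * n := by rw [ha2]; field_simp
  have hQ : Real.sqrt (D * n) = a * n := by
    rw [hDa, show a ^ 2 * n * n = (a * n) ^ 2 by ring]
    exact Real.sqrt_sq (by positivity)
  have ht : (0 : ℝ) < K * a := by positivity
  have hth : (par m K p q hm hq).th S = c3 m * (a * n) := by
    unfold Par.th
    have e1 : (((par m K p q hm hq).p2 : ℝ) / ((par m K p q hm hq).q2 : ℝ) * (D2 S : ℝ) * n) =
        (c3 m * (a * n)) ^ 2 := by
      simp only [par]
      rw [← hDdef, hDa]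
      unfold c3
      push_cast
      field_simp
      norm_num
    rw [e1]
    exact Real.sqrt_sq (by positivity)
  have hR : n * (64 * (par m K p q hm hq).R S) = (K ^ 2 * c3 m * a ^ 3 * n / 2) ^ 2 := by
    unfold Par.R
    simp only [par]
    rw [← hDdef, hDa]
    unfold c3
    push_cast
    field_simp
    ring
  have hw : 2 * Real.sqrt (n * (64 * (par m K p q hm hq).R S)) / (K * a) ^ 2 =
      c3 m * (a * n) := by
    rw [hR, Real.sqrt_sq (by positivity)]
    field_simp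
  have hdl := dl_par hn0 m K p q hm hK hq h1 h2 S hD
  rw [← hDdef, ← hadef, hQ] at hdl
  have he : ((par m K p q hm hq).e n : ℝ) ≤ (p / q : ℝ) * n := by
    have e1 : (par m K p q hm hq).e n = p * n / q := rfl
    rw [e1]
    calc ((p * n / q : ℕ) : ℝ) ≤ ((p * n : ℕ) : ℝ) / q := Nat.cast_div_le
      _ = (p / q : ℝ) * n := by push_cast; ring
  have hL : Real.log 2 ≤ 7 / 10 := by
    have := Real.log_two_lt_d9
    linarith
  have hsD : (1 : ℝ) ≤ Real.sqrt D := by
    rw [Real.one_le_sqrt]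
    exact hD1
  have hsD2 : 16 * Real.sqrt D ≤ c3 m * (a * n) := by
    have e1 : Real.sqrt D = a * Real.sqrt n := by
      rw [hDa, Real.sqrt_mul (by positivity), Real.sqrt_sq ha.le]
    have e2 : (n : ℝ) = Real.sqrt n * Real.sqrt n := (Real.mul_self_sqrt hnpos.le).symm
    have e3 : 16 / c3 m ≤ Real.sqrt n := by
      apply Real.le_sqrt_of_sq_le
      have : 16 / c3 m = 16 * 10 ^ 6 * (m : ℝ) ^ 3 := by
        unfold c3
        field_simp
      rw [this]
      exact hn'
    have e4 : 16 ≤ c3 m * Real.sqrt n := by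
      rw [div_le_iff₀ hcpos] at e3
      linarith
    rw [e1]
    calc 16 * (a * Real.sqrt n) ≤ (c3 m * Real.sqrt n) * (a * Real.sqrt n) :=
          mul_le_mul_of_nonneg_right e4 (by positivity)
      _ = c3 m * (a * (Real.sqrt n * Real.sqrt n)) := by ring
      _ = c3 m * (a * n) := by rw [← e2]
  obtain ⟨hmain, hef⟩ := SO2_main (r := 1 / (m : ℝ)) (c := c3 m) (a := a) (n := n) (K := K) (ρ := p / q)
    (e := ((par m K p q hm hq).e n : ℝ)) (L := Real.log 2) hr hr1 hc ha hnpos hK1 (by positivity)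
    he h1 h2 hL (Real.log_nonneg (by norm_num)) hdl hw hsD hsD2
  have hDt : D / (K * a) = a * n / K := by
    rw [hDa]
    field_simp
  refine optR hS ht b hRob hx hmax ((par m K p q hm hq).R S) ((par m K p q hm hq).th S)
    ((par m K p q hm hq).e n) hef k ?_
  rw [← hDdef, hDt, hth, hQ]
  exact hmain

end Pool.Agent.MPa9445a.BE
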