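import Pool.Agent.Lib.MP_a9445a_lc.Mg.G152
import Pool.Agent.Lib.MP_a9445a_lc.SP.Cls
import Pool.Agent.Lib.MP_a9445a_lc.BE.ClsD

/-!
The classes of graphs.
-/

set_option autoImplicit false

open Finset

namespace Pool.Agent.MPa9445a.BE

variable {n : ℕ}

private theorem Cor_energetic {r r' : ℝ} (h : r' ≤ r) {G : SimpleGraph (Fin n)}
    (hE : Energetic r G) : Energetic r' G :=
  (mul_le_mul_of_nonneg_right h (Real.sqrt_nonneg _)).trans hE

private theorem Cor_fast {r r' : ℝ} (h : r' ≤ r) {G : SimpleGraph (Fin n)} {H : Finset (Fin n)}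
    (hF : Fast r G H) : Fast r' G H := by
  rcases hF with h1 | h1 | h1 | h1
  · exact Or.inl (Cor_energetic h h1)
  · exact Or.inr (Or.inl (Cor_energetic h h1))
  · exact Or.inr (Or.inr (Or.inl (h1.mono h h)))
  · exact Or.inr (Or.inr (Or.inr (h1.mono h h)))

private theorem Cor_zero {r : ℝ} {G : SimpleGraph (Fin n)} (h : ne G = 0) : Energetic r G := by
  unfold Energetic
  rw [h]
  simp only [Nat.cast_zero, mul_zero, zero_mul, Real.sqrt_zero]
  unfold gen
  exact Finset.sum_nonneg fun i _ => abs_nonneg _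

private theorem Cor_cube {c r : ℝ} (hr : 0 < r) (hr1 : r ≤ 1) (hc0 : 0 < c) (hc : c ≤ r ^ 3 / 200)
    {G : SimpleGraph (Fin n)} (hS : Sparse c G) :
    8 * (ne G : ℝ) ^ 3 ≤ r ^ 8 / 10 ^ 6 * (n : ℝ) ^ 5 := by
  have hn0 : (0 : ℝ) ≤ n := Nat.cast_nonneg n
  have h1 : (ne G : ℝ) ^ 3 ≤ (c * (n : ℝ) ^ (5 / 3 : ℝ)) ^ 3 :=
    pow_le_pow_left₀ (Nat.cast_nonneg _) hS 3
  have h2 : ((n : ℝ) ^ (5 / 3 : ℝ)) ^ 3 = (n : ℝ) ^ 5 := by
    rw [← Real.rpow_natCast, ← Real.rpow_mul hn0, ← Real.rpow_natCast]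
    norm_num
  rw [mul_pow, h2] at h1
  have h3 : c ^ 3 ≤ (r ^ 3 / 200) ^ 3 := pow_le_pow_left₀ hc0.le hc 3
  have h4 : (r ^ 3 / 200) ^ 3 = r ^ 9 / (8 * 10 ^ 6) := by
    rw [div_pow]
    norm_num
    ring
  have h5 : r ^ 9 ≤ r ^ 8 := pow_le_pow_of_le_one hr.le hr1 (by norm_num)
  have hn5 : (0 : ℝ) ≤ (n : ℝ) ^ 5 := by positivity
  calc 8 * (ne G : ℝ) ^ 3 ≤ 8 * (c ^ 3 * (n : ℝ) ^ 5) := by linarith
    _ ≤ 8 * ((r ^ 9 / (8 * 10 ^ 6)) * (n : ℝ) ^ 5) := by
        rw [h4] at h3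
        have := mul_le_mul_of_nonneg_right h3 hn5
        linarith
    _ = r ^ 9 / 10 ^ 6 * (n : ℝ) ^ 5 := by ring
    _ ≤ r ^ 8 / 10 ^ 6 * (n : ℝ) ^ 5 := by
        refine mul_le_mul_of_nonneg_right ?_ hn5
        linarith

/-- The class of the theorem is contained in the class for which the algorithm was analysed. -/
theorem classR_of_tame {r r₁ c s : ℝ} {M : ℕ} (hr₁ : 0 < r₁) (h1 : r₁ ≤ 1) (hrr : r₁ ≤ r)
    (hc0 : 0 < c) (hc : c ≤ r₁ ^ 3 / 200) (hs : s ≤ r₁ ^ 2 / 200) {G : SimpleGraph (Fin n)}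
    (hT : Tame r c M G) : ClassR s M G := by
  have hsq : r₁ ^ 2 ≤ r₁ := by nlinarith
  have hsr : s ≤ r := by linarith
  obtain ⟨H, ⟨hH, hT⟩ | hT⟩ := hT
  · refine ⟨H, Or.inl ⟨hH, ?_⟩⟩
    have hU : ∀ (G' : SimpleGraph (Fin n)) (u v : Fin n), (subG G' H).Adj u v → u ∈ Hᶜ := by
      intro G' u v h
      rw [Finset.mem_compl]
      exact h.2.1
    rcases hT with hT | ⟨hSp, hS⟩ | ⟨hSp, hS, ht⟩
    · exact Cor_fast hsr hT
    · rcases Nat.eq_zero_or_pos (ne (subG G H)) with h0 | h0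
      · exact Or.inl (Cor_zero h0)
      · have h2 := rob_spread (hU G) hr₁ h1 h0 (hS.mono hrr) (Cor_cube hr₁ h1 hc0 hc hSp)
        exact Or.inr (Or.inr (Or.inl (h2.mono (by nlinarith) (by nlinarith))))
    · rcases Nat.eq_zero_or_pos (ne (subG Gᶜ H)) with h0 | h0
      · exact Or.inr (Or.inl (Cor_zero h0))
      · have h3 : c ≤ r₁ := by
          have : r₁ ^ 3 ≤ r₁ := by nlinarith
          linarith
        have h4 : (tri (subG Gᶜ H) : ℝ) ≤ r₁ * ne (subG Gᶜ H) *
            Real.sqrt (ne (subG Gᶜ H) / n) := by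
          refine ht.trans ?_
          refine mul_le_mul_of_nonneg_right ?_ (Real.sqrt_nonneg _)
          exact mul_le_mul_of_nonneg_right h3 (Nat.cast_nonneg _)
        have h2 := rob_spread_neg (hU Gᶜ) hr₁ h1 h0 (hS.mono hrr) (Cor_cube hr₁ h1 hc0 hc hSp) h4
        exact Or.inr (Or.inr (Or.inr (h2.mono hs (by nlinarith))))
  · exact ⟨H, Or.inr hT⟩

/-- Graphs of bounded average degree. -/
theorem classR_of_degree {D : ℝ} (hD : 0 ≤ D) (M : ℕ) (G : SimpleGraph (Fin n))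
    (h : 2 * (ne G : ℝ) ≤ D * n) {s : ℝ} (hs : s ≤ 1 / (60 * Real.sqrt (D + 1))) :
    ClassR s M G := by
  obtain ⟨H, ⟨h1, h2⟩ | h2⟩ := Class_of_degree hD M G h
  · refine ⟨H, Or.inl ⟨h1, ?_⟩⟩
    rcases h2 with h2 | h2
    · exact Or.inl (Cor_energetic hs h2)
    · exact Or.inr (Or.inl (Cor_energetic hs h2))
  · exact ⟨H, Or.inr h2⟩

/-- If the maximum degree is at most `1 / r` times the average degree, no `(r / 4) n` vertices cover more than half of the edges. -/
theorem spread_of_flat {r : ℝ} (hr : 0 < r) (hr1 : r ≤ 1) {G : SimpleGraph (Fin n)}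
    (hF : Flat r G) : Spread (r / 4) G := by
  classical
  intro B hB
  have h01 : ∀ (G : SimpleGraph (Fin n)) (u v : Fin n), adjR G u v = 0 ∨ adjR G u v = 1 := by
    intro G u v
    unfold adjR
    split_ifs
    · exact Or.inr rfl
    · exact Or.inl rfl
  have hpos : ∀ (G : SimpleGraph (Fin n)) (u v : Fin n), 0 ≤ adjR G u v := by
    intro G u v
    rcases h01 G u v with h | h <;> rw [h]
    exact zero_le_one
  have hsq : ∀ G : SimpleGraph (Fin n), ∑ u, ∑ v, adjR G u v = 2 * ne G := by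
    intro G
    rw [← sum_adjR_sq]
    refine Finset.sum_congr rfl fun u _ => Finset.sum_congr rfl fun v _ => ?_
    rcases h01 G u v with h | h <;> rw [h] <;> norm_num
  have hsym : ∀ u v, adjR G u v = adjR G v u := by
    intro u v
    unfold adjR
    by_cases h : G.Adj u v
    · rw [if_pos h, if_pos h.symm]
    · rw [if_neg h, if_neg fun h' => h h'.symm]
  have hterm : ∀ u v, adjR G u v ≤ adjR (subG G B) u v + (if u ∈ B then adjR G u v else 0) +
      (if v ∈ B then adjR G u v else 0) := by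
    intro u v
    have h1 := hpos G u v
    have h2 := hpos (subG G B) u v
    by_cases hu : u ∈ B
    · rw [if_pos hu]
      split_ifs <;> linarith
    · by_cases hv : v ∈ B
      · rw [if_neg hu, if_pos hv]
        linarith
      · rw [if_neg hu, if_neg hv, add_zero, add_zero]
        unfold adjR
        by_cases h : G.Adj u v
        · rw [if_pos h, if_pos (show (subG G B).Adj u v from ⟨h, hu, hv⟩)]
        · rw [if_neg h]
          split_ifs <;> norm_num
  have hsum : 2 * (ne G : ℝ) ≤ 2 * ne (subG G B) + 2 * ∑ v ∈ B, ∑ u, adjR G v u := by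
    rw [← hsq G, ← hsq (subG G B)]
    refine (Finset.sum_le_sum fun u _ => Finset.sum_le_sum fun v _ => hterm u v).trans ?_
    simp only [Finset.sum_add_distrib]
    have e1 : ∑ u, ∑ v, (if u ∈ B then adjR G u v else 0) = ∑ v ∈ B, ∑ u, adjR G v u := by
      rw [← Finset.sum_filter_add_sum_filter_not univ (fun u => u ∈ B)]
      have h1 : ∑ u ∈ univ.filter (fun u => u ∉ B), ∑ v, (if u ∈ B then adjR G u v else 0) = 0 :=
        Finset.sum_eq_zero fun u hu => Finset.sum_eq_zero fun v _ =>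
          if_neg (Finset.mem_filter.1 hu).2
      rw [h1, add_zero]
      have h2 : univ.filter (fun u => u ∈ B) = B := by ext; simp
      rw [h2]
      exact Finset.sum_congr rfl fun u hu => Finset.sum_congr rfl fun v _ => if_pos hu
    have e2 : ∑ u, ∑ v, (if v ∈ B then adjR G u v else 0) = ∑ v ∈ B, ∑ u, adjR G v u := by
      rw [Finset.sum_comm, ← e1]
      refine Finset.sum_congr rfl fun u _ => Finset.sum_congr rfl fun v _ => ?_
      rw [hsym v u]
    rw [e1, e2]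
    linarith
  rcases Nat.eq_zero_or_pos n with h0 | h0
  · subst h0
    have h1 := hsq G
    rw [Fin.sum_univ_zero] at h1
    have h2 : (ne G : ℝ) = 0 := by linarith
    rw [h2, mul_zero]
    exact Nat.cast_nonneg _
  have hN : (0 : ℝ) < n := by exact_mod_cast h0
  have hcov : ∑ v ∈ B, ∑ u, adjR G v u ≤ (ne G : ℝ) / 2 := by
    have h1 : ∀ v, ∑ u, adjR G v u ≤ 2 * ne G / (r * n) := by
      intro v
      rw [le_div_iff₀ (by positivity)]
      have := hF v
      linarith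
    calc ∑ v ∈ B, ∑ u, adjR G v u ≤ ∑ _v ∈ B, 2 * (ne G : ℝ) / (r * n) :=
          Finset.sum_le_sum fun v _ => h1 v
      _ = B.card * (2 * (ne G : ℝ) / (r * n)) := by rw [Finset.sum_const, nsmul_eq_mul]
      _ ≤ (r / 4 * n) * (2 * (ne G : ℝ) / (r * n)) :=
          mul_le_mul_of_nonneg_right hB (by positivity)
      _ = (ne G : ℝ) / 2 := by
          field_simp
          norm_num
  have hm : (0 : ℝ) ≤ ne G := Nat.cast_nonneg _
  nlinarith

end Pool.Agent.MPa9445a.BE
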