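import Pool.Agent.Lib.MP_a9445a_lc.BE.Fin
import Pool.Agent.Lib.MP_a9445a_lc.Mg.G153

/-! The theorem. -/

set_option autoImplicit false

open Finset

namespace Pool.Agent.MPa9445a.BE

/-- Good parameters exist. The proof is that of `exists_good`. -/
theorem exists_goodR {r : ℝ} (hr : 0 < r) :
    ∃ (P : Prm) (δ : ℝ), Good P r δ ∧ ∀ n : ℕ, P.n₀ ≤ n → OptR P.p r n := by
  obtain ⟨p, δ, n₁, hδ, _, hmain⟩ := math_mainR hr
  obtain ⟨m₀, hm₀⟩ := exists_nat_ge (3 / δ)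
  obtain ⟨M, hM100, n₂, hn₂⟩ := splM (18 * max 100 m₀) (by positivity)
  obtain ⟨n₃, hn₃⟩ := spl60
  obtain ⟨n₄, hn₄⟩ := n4_bound (18 * max 100 m₀) (by positivity)
  refine ⟨⟨p, max 100 m₀, M, 18 * max 100 m₀, 100 + n₁ + n₂ + n₃ + n₄⟩, δ, ?_, fun n hn => by
    have hn' : 100 + n₁ + n₂ + n₃ + n₄ ≤ n := hn
    exact (hmain n (by omega)).2.2⟩
  refine ⟨le_max_left _ _, hM100, ?_, le_refl _, ?_, ?_, ?_, ?_, ?_, ?_⟩
  · show 100 ≤ 100 + n₁ + n₂ + n₃ + n₄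
    omega
  · show 3 ≤ δ * ((max 100 m₀ : ℕ) : ℝ)
    rw [div_le_iff₀ hδ] at hm₀
    have h1 : (m₀ : ℝ) ≤ ((max 100 m₀ : ℕ) : ℝ) := by exact_mod_cast le_max_right 100 m₀
    nlinarith
  · intro n hn
    have hn' : 100 + n₁ + n₂ + n₃ + n₄ ≤ n := hn
    exact (hmain n (by omega)).1
  · intro n hn
    have hn' : 100 + n₁ + n₂ + n₃ + n₄ ≤ n := hn
    exact (hmain n (by omega)).2.1
  · intro n hn
    have hn' : 100 + n₁ + n₂ + n₃ + n₄ ≤ n := hn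
    exact hn₃ n (by omega)
  · intro n hn
    have hn' : 100 + n₁ + n₂ + n₃ + n₄ ≤ n := hn
    exact hn₂ n (by omega)
  · intro n hn
    have hn' : 100 + n₁ + n₂ + n₃ + n₄ ≤ n := hn
    exact hn₄ n (by omega)

theorem main_thmR {r : ℝ} (hr : 0 < r) :
    ∃ (δ : ℝ) (M : ℕ) (e : Ex [.int, .arr] .arr), 0 < δ ∧ 0 < M ∧
      (∀ τ : ℝ, 2 ≤ τ → ∃ C : ℝ, ∀ (n : ℕ) (G : SimpleGraph (Fin n)),
        e.cost τ ((n : ℤ), arrG G, ()) ≤ C * 2 ^ ((τ / 3 - δ) * n)) ∧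
      ∀ n : ℕ, Even n → ∀ G : SimpleGraph (Fin n), ClassR r M G →
        IsMinBisection G (univ.filter fun v : Fin n =>
          nth (e.eval ((n : ℤ), arrG G, ())) (v : ℕ) = 1) := by
  obtain ⟨P, δ, hP, hR⟩ := exists_goodR hr
  have h1 : Cp Prod.fst (fun a : Gr => ∃ G : SimpleGraph (Fin a.1), a.2 = arrG G)
      (Γ := [.int, .arr]) (fun a => ((a.1 : ℤ), a.2, ())) (wf P) .arr
      (fun a => out P a.1 a.2) := by
    refine c_out P hP.m100 ?_ ?_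
    · exact Cp.top (t := .int) (f := fun a : Gr => (a.1 : ℤ)) ((Bd.self).size)
    · refine Cp.wk (s := .int) (g := fun a : Gr => (a.1 : ℤ)) ?_
      refine Cp.top (t := .arr) (f := fun a : Gr => a.2) ⟨3, ?_⟩
      intro a ha
      obtain ⟨G, hG⟩ := ha
      show vs (t := .arr) a.2 ≤ _
      rw [hG]
      exact vs_arrG G
  obtain ⟨e, k, he⟩ := h1
  have hm0 : (0 : ℝ) < P.m := by
    have := hP.m100
    have h2 : (100 : ℝ) ≤ P.m := by exact_mod_cast this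
    linarith
  refine ⟨1 / P.m, P.M, e, by positivity, by have := hP.M100; omega, ?_, ?_⟩
  · intro τ hτ
    obtain ⟨C, hC⟩ := time_bound P hP.m100 hP.b0 k hτ
    refine ⟨C, fun n G => ?_⟩
    exact ((he (n, arrG G) ⟨G, rfl⟩).2.2 τ hτ).2.trans (hC n (arrG G))
  · intro n hn G hC
    have h2 := out_correctR hP hR hn G (fm_arrG G) hC
    have h3 := (he (n, arrG G) ⟨G, rfl⟩).1
    simp only at h3
    rw [h3]
    simpa only [nth_nat] using h2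

end Pool.Agent.MPa9445a.BE
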